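import Mathlib

/-! Recurrence on the hyperspaces of compact and of compact convex sets. -/

set_option autoImplicit false

open TopologicalSpace Set

namespace Pool.Agent.Q83.Hyp

/-- A Furstenberg family: upward closed, not containing the empty set. -/
structure IsFurstenberg (A : Set (Set ℕ)) : Prop where
  up : ∀ S T : Set ℕ, S ∈ A → S ⊆ T → T ∈ A
  notEmpty : ∅ ∉ A

/-- The `ℓ`-return set of `U` under `g`: all `n` such that `⋂_{j ≤ ℓ} g^{-jn}(U)` is nonempty. -/
def returnSet {Y : Type*} (g : Y → Y) (ℓ : ℕ) (U : Set Y) : Set ℕ :=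
  {n | (⋂ j : Fin (ℓ + 1), g^[(j : ℕ) * n] ⁻¹' U).Nonempty}

/-- Topological `(ℓ, A)`-recurrence. -/
def TopRecurrent {Y : Type*} [TopologicalSpace Y] (g : Y → Y) (ℓ : ℕ) (A : Set (Set ℕ)) : Prop :=
  ∀ U : Set Y, IsOpen U → U.Nonempty → returnSet g ℓ U ∈ A

section

variable {𝕜 X : Type*} [RCLike 𝕜] [AddCommGroup X] [Module 𝕜 X] [Module ℝ X]
  [IsScalarTower ℝ 𝕜 X] [TopologicalSpace X]

/-- The hyperextension `K ↦ f(K)` on the nonempty compact sets. -/
def hyper (f : X →L[𝕜] X) : NonemptyCompacts X → NonemptyCompacts X :=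
  NonemptyCompacts.map f f.continuous

variable (X) in
/-- The nonempty compact convex sets, with the topology induced from the Vietoris topology. -/
abbrev ConvexCompacts : Type _ := {K : NonemptyCompacts X // Convex ℝ (K : Set X)}

/-- The hyperextension restricted to compact convex sets. -/
def hyperConv (f : X →L[𝕜] X) : ConvexCompacts X → ConvexCompacts X :=
  fun K => ⟨hyper f K.1, by
    have h := K.2.linear_image ((f : X →ₗ[𝕜] X).restrictScalars ℝ)
    exact h⟩

end

end Pool.Agent.Q83.Hyp
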