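import Pool.Agent.Q83.Hyp.Main

/-! Recurrence of the hyperextension on compact sets and on compact convex sets. -/

set_option autoImplicit false

open TopologicalSpace Set Topology Pointwise

namespace Pool.Agent.Q83.Hyp

theorem mem_returnSet {Y : Type*} {g : Y → Y} {ℓ n : ℕ} {U : Set Y} :
    n ∈ returnSet g ℓ U ↔ ∃ y, ∀ j ≤ ℓ, g^[j * n] y ∈ U := by
  simp only [returnSet, mem_setOf_eq, Set.Nonempty, mem_iInter, mem_preimage]
  constructor
  · rintro ⟨y, hy⟩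
    exact ⟨y, fun j hj => hy ⟨j, Nat.lt_succ_of_le hj⟩⟩
  · rintro ⟨y, hy⟩
    exact ⟨y, fun j => hy j (Nat.lt_succ_iff.1 j.2)⟩

section

variable {𝕜 X : Type*} [RCLike 𝕜] [AddCommGroup X] [Module 𝕜 X] [Module ℝ X]
  [IsScalarTower ℝ 𝕜 X] [TopologicalSpace X]

omit [Module ℝ X] [IsScalarTower ℝ 𝕜 X] in
theorem hyper_iter (f : X →L[𝕜] X) (m : ℕ) (K : NonemptyCompacts X) :
    (((hyper f)^[m] K : NonemptyCompacts X) : Set X) = f^[m] '' (K : Set X) := by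
  induction m with
  | zero => simp
  | succ m ih =>
    rw [Function.iterate_succ_apply', Function.iterate_succ', image_comp, ← ih]
    rfl

theorem hyperConv_iter (f : X →L[𝕜] X) (m : ℕ) (K : ConvexCompacts X) :
    ((hyperConv f)^[m] K).1 = (hyper f)^[m] K.1 := by
  induction m with
  | zero => rfl
  | succ m ih =>
    rw [Function.iterate_succ_apply', Function.iterate_succ_apply', ← ih]
    rfl

theorem basis_nc {𝒪 : Set (NonemptyCompacts X)} (h𝒪 : IsOpen 𝒪) {K₀ : NonemptyCompacts X}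
    (hK₀ : K₀ ∈ 𝒪) : ∃ u : Set (Set X), u.Finite ∧ u.Nonempty ∧ (∀ U ∈ u, IsOpen U) ∧
      ((K₀ : Set X) ⊆ ⋃₀ u) ∧ (∀ U ∈ u, ((K₀ : Set X) ∩ U).Nonempty) ∧
      ∀ K : NonemptyCompacts X, (K : Set X) ⊆ ⋃₀ u → (∀ U ∈ u, ((K : Set X) ∩ U).Nonempty) →
        K ∈ 𝒪 := by
  obtain ⟨v, hv, hKv, hvO⟩ :=
    (isTopologicalBasis_opens (α := X)).nonemptyCompacts.exists_subset_of_mem_open hK₀ h𝒪
  obtain ⟨u, ⟨hu1, hu2, hu3⟩, rfl⟩ := hv
  exact ⟨u, hu1, hu2, hu3, hKv.1, hKv.2, fun K h1 h2 => hvO ⟨h1, h2⟩⟩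

end

section

variable {𝕜 X : Type*} [RCLike 𝕜] [AddCommGroup X] [Module 𝕜 X] [Module ℝ X]
  [IsScalarTower ℝ 𝕜 X] [TopologicalSpace X] [IsTopologicalAddGroup X] [ContinuousSMul ℝ X]
  [LocallyConvexSpace ℝ X]

/-- Compact recurrence implies compact convex recurrence. -/
theorem conv_of_compact (f : X →L[𝕜] X) (ℓ : ℕ) {A : Set (Set ℕ)} (hA : IsFurstenberg A)
    (h : TopRecurrent (hyper f) ℓ A) : TopRecurrent (hyperConv f) ℓ A := by
  classical
  rintro 𝒰 h𝒰 ⟨K₀, hK₀⟩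
  obtain ⟨𝒪, h𝒪, rfl⟩ := isOpen_induced_iff.1 h𝒰
  obtain ⟨u, hfin, hne, huo, hKu, hKU, hsub⟩ := basis_nc h𝒪 hK₀
  -- a uniform convex neighbourhood
  obtain ⟨V₀, hV₀, hKV₀⟩ := compact_open_separated_add_right K₀.1.isCompact
    (isOpen_sUnion huo) hKu
  choose! k hkK hkU using fun U (hU : U ∈ u) => hKU U hU
  have hV : V₀ ∩ ⋂ U ∈ u, {w : X | k U + w ∈ U} ∈ 𝓝 (0 : X) := by
    refine Filter.inter_mem hV₀ ((Filter.biInter_mem hfin).2 fun U hU => ?_)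
    have : IsOpen {w : X | k U + w ∈ U} := (huo U hU).preimage (continuous_add_left (k U))
    exact this.mem_nhds (by simpa using hkU U hU)
  obtain ⟨p, hp, hpV⟩ := exists_seminorm hV
  set W : Set X := {v | p v < 1} with hW
  have hWo : IsOpen W := isOpen_lt hp continuous_const
  have hW0 : (0 : X) ∈ W := by simp [hW]
  have hWc : Convex ℝ W := by
    have : W = p.ball 0 1 := by ext v; simp [hW]
    rw [this]
    exact p.convex_ball 0 1
  have hKW : ((K₀.1 : Set X) + W) ⊆ ⋃₀ u := (add_subset_add_left fun v hv => (hpV hv).1).trans hKV₀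
  have hUW : ∀ U ∈ u, ∀ w ∈ W, k U + w ∈ U := fun U hU w hw => by
    have := (hpV hw).2
    simp only [mem_iInter] at this
    exact this U hU
  let 𝒱 : Set (NonemptyCompacts X) := {K | (K : Set X) ⊆ (K₀.1 : Set X) + W} ∩
    ⋂ U ∈ u, {K | ((K : Set X) ∩ ({k U} + W)).Nonempty}
  have h𝒱 : IsOpen 𝒱 := by
    refine (NonemptyCompacts.isOpen_subsets_of_isOpen hWo.add_left).inter
      (hfin.isOpen_biInter fun U _ => NonemptyCompacts.isOpen_inter_nonempty_of_isOpen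
        hWo.add_left)
  have h𝒱ne : 𝒱.Nonempty := by
    refine ⟨K₀.1, fun v hv => ⟨v, hv, 0, hW0, add_zero v⟩, ?_⟩
    simp only [mem_iInter]
    exact fun U hU => ⟨k U, hkK U hU, ⟨k U, rfl, 0, hW0, add_zero _⟩⟩
  refine hA.up _ _ (h 𝒱 h𝒱 h𝒱ne) fun n hn => ?_
  rw [mem_returnSet] at hn ⊢
  obtain ⟨K, hK⟩ := hn
  have hK1 : ∀ j ≤ ℓ, f^[j * n] '' (K : Set X) ⊆ (K₀.1 : Set X) + W := fun j hj => by
    rw [← hyper_iter]; exact (hK j hj).1
  have hK2 : ∀ j ≤ ℓ, ∀ U ∈ u, ∃ z ∈ (K : Set X), f^[j * n] z ∈ ({k U} + W : Set X) := by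
    intro j hj U hU
    have h1 := (hK j hj).2
    simp only [mem_iInter] at h1
    obtain ⟨w, hw1, hw2⟩ := h1 U hU
    rw [hyper_iter] at hw1
    obtain ⟨z, hz, rfl⟩ := hw1
    exact ⟨z, hz, hw2⟩
  choose! z hzK hzU using hK2
  set S : Set X := (fun q : ℕ × Set X => z q.1 q.2) '' (Iic ℓ ×ˢ u) with hS
  have hSf : S.Finite := ((finite_Iic ℓ).prod hfin).image _
  have hSne : S.Nonempty := by
    obtain ⟨U, hU⟩ := hne
    exact ⟨_, ⟨(0, U), ⟨by simp, hU⟩, rfl⟩⟩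
  have hSK : S ⊆ K := by
    rintro _ ⟨⟨j, U⟩, ⟨hj, hU⟩, rfl⟩
    exact hzK j hj U hU
  have hconvi : ∀ m, f^[m] '' convexHull ℝ S = convexHull ℝ (f^[m] '' S) := by
    intro m
    have e : ∀ v, f^[m] v = (((f : X →ₗ[𝕜] X).restrictScalars ℝ) ^ m) v := by
      intro v
      rw [Module.End.pow_apply]
      rfl
    have e' : f^[m] = ⇑((((f : X →ₗ[𝕜] X).restrictScalars ℝ) ^ m)) := funext e
    rw [e']
    exact LinearMap.image_convexHull _ _
  let K' : ConvexCompacts X := ⟨⟨⟨convexHull ℝ S, hSf.isCompact_convexHull ℝ⟩,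
    hSne.convexHull⟩, convex_convexHull ℝ S⟩
  refine ⟨K', fun j hj => ?_⟩
  change ((hyperConv f)^[j * n] K').1 ∈ 𝒪
  rw [hyperConv_iter]
  have hcoe : (((hyper f)^[j * n] K'.1 : NonemptyCompacts X) : Set X) =
      convexHull ℝ (f^[j * n] '' S) := by
    rw [hyper_iter, ← hconvi]
    rfl
  apply hsub
  · rw [hcoe]
    refine (convexHull_min ?_ (K₀.2.add hWc)).trans hKW
    exact (image_mono hSK).trans (hK1 j hj)
  · intro U hU
    rw [hcoe]
    refine ⟨f^[j * n] (z j U), subset_convexHull ℝ _ (mem_image_of_mem _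
      ⟨(j, U), ⟨hj, hU⟩, rfl⟩), ?_⟩
    obtain ⟨a, ha, w, hw, haw⟩ := hzU j hj U hU
    rw [mem_singleton_iff] at ha
    subst ha
    rw [← haw]
    exact hUW U hU w hw

/-- Compact convex recurrence implies compact recurrence. -/
theorem compact_of_conv (f : X →L[𝕜] X) (ℓ : ℕ) {A : Set (Set ℕ)} (hA : IsFurstenberg A)
    (h : TopRecurrent (hyperConv f) ℓ A) : TopRecurrent (hyper f) ℓ A := by
  classical
  rintro 𝒱 h𝒱 ⟨K₁, hK₁⟩
  obtain ⟨u, hfin, hne, huo, hKu, hKU, hsub⟩ := basis_nc h𝒱 hK₁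
  choose! k hkK hkU using fun U (hU : U ∈ u) => hKU U hU
  obtain ⟨N, e, -, he⟩ := hfin.fin_param
  have heu : ∀ i, e i ∈ u := fun i => he ▸ mem_range_self i
  have hN : Nonempty (Fin N) := by
    obtain ⟨U, hU⟩ := hne
    rw [← he] at hU
    obtain ⟨i, _⟩ := hU
    exact ⟨i⟩
  let F : X →L[ℝ] X := f.restrictScalars ℝ
  have hFf : ∀ m, F^[m] = f^[m] := fun m => rfl
  have hW : (⋂ i, {w : X | k (e i) + w ∈ e i}) ∈ 𝓝 (0 : X) := by
    refine Filter.iInter_mem.2 fun i => ?_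
    have : IsOpen {w : X | k (e i) + w ∈ e i} :=
      (huo _ (heu i)).preimage (continuous_add_left (k (e i)))
    exact this.mem_nhds (by simpa using hkU _ (heu i))
  obtain ⟨a, O, V, hO, hV, ⟨K₀, hK₀ne, hK₀c, hK₀v, hK₀O, hK₀V⟩, hkey⟩ :=
    key F (fun i => k (e i)) hW
  let 𝒰 : Set (ConvexCompacts X) := {K | ((K.1 : NonemptyCompacts X) : Set X) ⊆ O ∧
    ∀ s, (((K.1 : NonemptyCompacts X) : Set X) ∩ V s).Nonempty}
  have h𝒰 : IsOpen 𝒰 := by
    have h1 : IsOpen ({K : NonemptyCompacts X | (K : Set X) ⊆ O} ∩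
        ⋂ s, {K : NonemptyCompacts X | ((K : Set X) ∩ V s).Nonempty}) :=
      (NonemptyCompacts.isOpen_subsets_of_isOpen hO).inter
        (isOpen_iInter_of_finite fun s => NonemptyCompacts.isOpen_inter_nonempty_of_isOpen (hV s))
    have h2 := h1.preimage (continuous_subtype_val (p := fun K : NonemptyCompacts X =>
      Convex ℝ (K : Set X)))
    convert h2 using 1
    ext K
    simp [𝒰]
  have h𝒰ne : 𝒰.Nonempty := ⟨⟨⟨⟨K₀, hK₀c⟩, hK₀ne⟩, hK₀v⟩, hK₀O, hK₀V⟩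
  refine hA.up _ _ (h 𝒰 h𝒰 h𝒰ne) fun n hn => ?_
  rw [mem_returnSet] at hn ⊢
  obtain ⟨K, hK⟩ := hn
  obtain ⟨z, hz⟩ := hkey ℓ n (K.1 : Set X) fun j hj => by
    have h1 := hK j hj
    have h2 : (((hyperConv f)^[j * n] K).1 : Set X) = F^[j * n] '' (K.1 : Set X) := by
      rw [hyperConv_iter, hyper_iter, hFf]
    simp only [𝒰, mem_setOf_eq] at h1
    rw [h2] at h1
    exact h1
  let K' : NonemptyCompacts X := ⟨⟨range z, (finite_range z).isCompact⟩, range_nonempty z⟩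
  refine ⟨K', fun j hj => ?_⟩
  have hcoe : (((hyper f)^[j * n] K' : NonemptyCompacts X) : Set X) = f^[j * n] '' range z := by
    rw [hyper_iter]; rfl
  have hzU : ∀ i, f^[j * n] (z i) ∈ e i := by
    intro i
    have h1 := hz i j hj
    simp only [mem_iInter, mem_setOf_eq] at h1
    have h2 := h1 i
    rw [add_sub_cancel] at h2
    exact h2
  apply hsub
  · rw [hcoe]
    rintro _ ⟨_, ⟨i, rfl⟩, rfl⟩
    exact ⟨e i, heu i, hzU i⟩
  · intro U hU
    rw [hcoe]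
    rw [← he] at hU
    obtain ⟨i, rfl⟩ := hU
    exact ⟨_, mem_image_of_mem _ (mem_range_self i), hzU i⟩

end

end Pool.Agent.Q83.Hyp
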