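import Pool.Agent.Q83.Hyp.Defs

/-! The key lemma: choose a minimal number of generators of the points `x i` modulo a small
neighbourhood, and the simplex spanned by these generators. -/

set_option autoImplicit false

open TopologicalSpace Set Topology Polynomial

namespace Pool.Agent.Q83.Hyp

section key

variable {E : Type*} [AddCommGroup E] [Module ℝ E] [TopologicalSpace E]
  [IsTopologicalAddGroup E] [ContinuousSMul ℝ E]

/-- `a` generators suffice for the points `x i` modulo `W`. -/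
def Gen (F : E →L[ℝ] E) {N : ℕ} (x : Fin N → E) (a : ℕ) (W : Set E) : Prop :=
  ∃ (y : Fin a → E) (q : Fin N → Fin a → ℝ[X]),
    ∀ i, x i - ∑ s, aeval F (q i s) (y s) ∈ W

theorem Gen.mono {F : E →L[ℝ] E} {N : ℕ} {x : Fin N → E} {a : ℕ} {W W' : Set E}
    (h : Gen F x a W) (hW : W ⊆ W') : Gen F x a W' := by
  obtain ⟨y, q, hq⟩ := h
  exact ⟨y, q, fun i => hW (hq i)⟩

theorem gen_self (F : E →L[ℝ] E) {N : ℕ} (x : Fin N → E) {W : Set E} (hW : W ∈ 𝓝 (0 : E)) :
    Gen F x N W := by
  refine ⟨x, fun i s => if s = i then 1 else 0, fun i => ?_⟩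
  have : ∑ s, (aeval F (if s = i then (1 : ℝ[X]) else 0)) (x s) = x i := by
    rw [Finset.sum_eq_single i]
    · simp
    · intro s _ hs; simp [hs]
    · intro h; exact absurd (Finset.mem_univ i) h
  rw [this, sub_self]
  exact mem_of_mem_nhds hW

theorem pow_iter (F : E →L[ℝ] E) (m : ℕ) (v : E) : (F ^ m) v = F^[m] v := by
  induction m generalizing v with
  | zero => simp
  | succ m ih => rw [pow_succ, Function.iterate_succ_apply]; exact ih (F v)

theorem aeval_iter (F : E →L[ℝ] E) (q : ℝ[X]) (m : ℕ) (v : E) :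
    F^[m] (aeval F q v) = aeval F q (F^[m] v) := by
  rw [← pow_iter, ← pow_iter]
  have h : F ^ m * aeval F q = aeval F q * F ^ m := by
    have h1 : F ^ m = aeval F ((X : ℝ[X]) ^ m) := by simp
    rw [h1, ← map_mul, ← map_mul, mul_comm]
  exact congrArg (fun T : E →L[ℝ] E => T v) h

/-- If one of the points `z` can be replaced by a combination of iterates of the others, then
fewer generators suffice. -/
theorem reduce (F : E →L[ℝ] E) {N : ℕ} (x : Fin N → E) {a : ℕ} (q : Fin N → Fin (a + 1) → ℝ[X])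
    (z : Fin (a + 1) → E) (t : Fin (a + 1)) (r₀ : Fin a) (m : ℕ) (c : ℝ) (A : Fin a → ℝ)
    (zt : E) (hzt : zt = c • (F^[m] (z (t.succAbove r₀)) - ∑ r, A r • z (t.succAbove r)))
    {W : Set E} (h : ∀ i, x i - (aeval F (q i t) zt +
      ∑ r, aeval F (q i (t.succAbove r)) (z (t.succAbove r))) ∈ W) : Gen F x a W := by
  refine ⟨fun r => z (t.succAbove r), fun i r => q i (t.succAbove r) +
    q i t * (C c * ((if r = r₀ then X ^ m else 0) - C (A r))), fun i => ?_⟩
  convert h i using 2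
  rw [hzt]
  simp only [map_add, map_mul, map_sub, ContinuousLinearMap.add_apply, Finset.sum_add_distrib,
    aeval_C]
  rw [add_comm]
  congr 1
  rw [ContinuousLinearMap.map_smul, map_sub, map_sum]
  have e1 : ∀ r, ((aeval F (q i t)) * ((algebraMap ℝ (E →L[ℝ] E)) c *
      ((aeval F (if r = r₀ then (X : ℝ[X]) ^ m else 0)) - (algebraMap ℝ (E →L[ℝ] E)) (A r))))
      (z (t.succAbove r)) = c • (aeval F (q i t) (if r = r₀ then F^[m] (z (t.succAbove r)) else 0)
        - aeval F (q i t) (A r • z (t.succAbove r))) := by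
    intro r
    rw [ContinuousLinearMap.mul_apply, ContinuousLinearMap.mul_apply,
      ContinuousLinearMap.sub_apply]
    rw [Algebra.algebraMap_eq_smul_one, Algebra.algebraMap_eq_smul_one]
    rw [ContinuousLinearMap.smul_apply, ContinuousLinearMap.smul_apply,
      ContinuousLinearMap.one_apply, ContinuousLinearMap.one_apply,
      ContinuousLinearMap.map_smul, map_sub]
    congr 2
    split_ifs with hr
    · simp [pow_iter]
    · simp
  rw [Finset.sum_congr rfl fun r _ => e1 r, ← Finset.smul_sum, Finset.sum_sub_distrib]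
  congr 2
  rw [Finset.sum_eq_single r₀]
  · simp
  · intro r _ hr; simp [hr]
  · intro hr; exact absurd (Finset.mem_univ _) hr

/-- Choice of the minimal number of generators. -/
theorem exists_min (F : E →L[ℝ] E) {N : ℕ} (x : Fin N → E) :
    ∃ a : ℕ, (∀ W ∈ 𝓝 (0 : E), Gen F x a W) ∧
      ∀ b, b + 1 = a → ∃ W ∈ 𝓝 (0 : E), ¬ Gen F x b W := by
  classical
  have hex : ∃ a : ℕ, ∀ W ∈ 𝓝 (0 : E), Gen F x a W := ⟨N, fun W hW => gen_self F x hW⟩
  refine ⟨Nat.find hex, Nat.find_spec hex, fun b hb => ?_⟩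
  have h := Nat.find_min hex (m := b) (by omega)
  push Not at h
  exact h

omit [TopologicalSpace E] [IsTopologicalAddGroup E] [ContinuousSMul ℝ E] in
theorem psum (P : Seminorm ℝ E) {ι : Type*} (s : Finset ι) (g : ι → E) :
    P (∑ i ∈ s, g i) ≤ ∑ i ∈ s, P (g i) :=
  Finset.le_sum_of_subadditive P (map_zero P).le (map_add_le_add P) s g

/-- The quantitative core: either all iterates stay near the vertices, or one generator can be
dropped. -/
theorem core (F : E →L[ℝ] E) {N : ℕ} (x : Fin N → E) {a : ℕ} (p P : Seminorm ℝ E)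
    (y : Fin (a + 1) → E) (q : Fin N → Fin (a + 1) → ℝ[X]) {κ η δ M : ℝ} (hκ0 : 0 < κ)
    (hM : ∀ s t, P (y t - y s) ≤ M) (hM0 : 0 ≤ M)
    (hη : η = κ / (2 * (a + 1) * (M + 1))) (hη0 : 0 < η) (hδ : δ = η * κ / 2) (hδκ : δ ≤ κ / 2)
    (hclose : ∀ z : Fin (a + 1) → E, (∀ s, P (z s - y s) ≤ κ) →
      ∀ i, p (x i - ∑ s, aeval F (q i s) (z s)) < 1)
    (z : Fin (a + 1) → E) (hz : ∀ s, P (z s - y s) < δ) (s : Fin (a + 1)) (m : ℕ)
    (A : Fin (a + 1) → ℝ) (hA0 : ∀ t, 0 ≤ A t) (hA1 : ∑ t, A t = 1)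
    (hw : P (F^[m] (z s) - ∑ t, A t • y t) < δ) (hbad : κ < P (F^[m] (z s) - y s)) :
    Gen F x a {v | p v < 1} := by
  classical
  have hδ0 : 0 < δ := by rw [hδ]; positivity
  -- a large coefficient
  obtain ⟨t, hts, hAt⟩ : ∃ t, t ≠ s ∧ η ≤ A t := by
    by_contra hcon
    push Not at hcon
    have h1 : F^[m] (z s) - y s = (F^[m] (z s) - ∑ t, A t • y t) + ∑ t, A t • (y t - y s) := by
      simp only [smul_sub, Finset.sum_sub_distrib, ← Finset.sum_smul, hA1, one_smul]
      abel
    have h2 : P (∑ t, A t • (y t - y s)) ≤ ∑ t : Fin (a + 1), η * M := by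
      refine (psum P _ _).trans (Finset.sum_le_sum fun t _ => ?_)
      rw [map_smul_eq_mul, Real.norm_eq_abs, abs_of_nonneg (hA0 t)]
      rcases eq_or_ne t s with rfl | hne
      · rw [sub_self, map_zero, mul_zero]; positivity
      · exact mul_le_mul (hcon t hne).le (hM s t) (apply_nonneg _ _) hη0.le
    have h3 : P (F^[m] (z s) - y s) ≤ δ + (a + 1) * (η * M) := by
      rw [h1]
      refine (map_add_le_add P _ _).trans ?_
      have : (∑ t : Fin (a + 1), η * M) = (a + 1) * (η * M) := by simp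
      linarith
    have h4 : (a + 1) * (η * M) ≤ κ / 2 := by
      rw [hη]
      have : (0 : ℝ) < (a : ℝ) + 1 := by positivity
      rw [show ((a : ℝ) + 1) * (κ / (2 * (a + 1) * (M + 1)) * M) = κ / 2 * (M / (M + 1)) by
        field_simp]
      have hM1 : M / (M + 1) ≤ 1 := by
        rw [div_le_one (by linarith)]; linarith
      nlinarith
    linarith
  obtain ⟨r₀, hr₀⟩ := Fin.exists_succAbove_eq hts.symm
  set zt : E := (A t)⁻¹ • (F^[m] (z (t.succAbove r₀)) -
    ∑ r, A (t.succAbove r) • z (t.succAbove r)) with hzt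
  have hAt0 : 0 < A t := hη0.trans_le hAt
  have hA1' : A t + ∑ r, A (t.succAbove r) = 1 := by rw [← hA1, Fin.sum_univ_succAbove _ t]
  have hzty : P (zt - y t) ≤ κ := by
    have h1 : zt - y t = (A t)⁻¹ • ((F^[m] (z s) - ∑ t, A t • y t) +
        ∑ r, A (t.succAbove r) • (y (t.succAbove r) - z (t.succAbove r))) := by
      rw [hzt, hr₀, Fin.sum_univ_succAbove _ t]
      simp only [smul_sub, smul_add, Finset.sum_sub_distrib]
      rw [inv_smul_smul₀ hAt0.ne']
      abel
    rw [h1, map_smul_eq_mul, Real.norm_eq_abs, abs_of_pos (by positivity)]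
    have h2 : P ((F^[m] (z s) - ∑ t, A t • y t) +
        ∑ r, A (t.succAbove r) • (y (t.succAbove r) - z (t.succAbove r))) ≤ 2 * δ := by
      refine (map_add_le_add P _ _).trans ?_
      have h3 : P (∑ r, A (t.succAbove r) • (y (t.succAbove r) - z (t.succAbove r))) ≤
          ∑ r, A (t.succAbove r) * δ := by
        refine (psum P _ _).trans (Finset.sum_le_sum fun r _ => ?_)
        rw [map_smul_eq_mul, Real.norm_eq_abs, abs_of_nonneg (hA0 _)]
        refine mul_le_mul_of_nonneg_left ?_ (hA0 _)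
        rw [map_sub_rev]
        exact (hz _).le
      have h4 : ∑ r, A (t.succAbove r) * δ ≤ δ := by
        rw [← Finset.sum_mul]
        nlinarith
      linarith
    calc (A t)⁻¹ * _ ≤ η⁻¹ * (2 * δ) := by
          apply mul_le_mul _ h2 (apply_nonneg _ _) (by positivity)
          exact inv_anti₀ hη0 hAt
      _ = κ := by rw [hδ]; field_simp
  refine reduce F x q z t r₀ m (A t)⁻¹ (fun r => A (t.succAbove r)) zt hzt fun i => ?_
  have h := hclose (Function.update z t zt) (fun r => by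
    rcases eq_or_ne r t with rfl | hne
    · simpa using hzty
    · rw [Function.update_of_ne hne]; linarith [hz r]) i
  rw [Fin.sum_univ_succAbove _ t] at h
  simpa [Fin.succAbove_ne] using h

theorem exists_seminorm [LocallyConvexSpace ℝ E] {W : Set E} (hW : W ∈ 𝓝 (0 : E)) :
    ∃ p : Seminorm ℝ E, Continuous p ∧ {v | p v < 1} ⊆ W := by
  obtain ⟨B, ⟨hB0, hBo, hBc⟩, hBW⟩ := (nhds_hasBasis_absConvex_open ℝ E).mem_iff.1 hW
  refine ⟨gaugeSeminorm hBc.1 hBc.2 (absorbent_nhds_zero (hBo.mem_nhds hB0)), ?_, ?_⟩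
  · exact continuous_gauge hBc.2 (hBo.mem_nhds hB0)
  · intro v hv
    have := gauge_lt_one_eq_self_of_isOpen hBc.2 hB0 hBo
    apply hBW
    change v ∈ B
    rw [← this]
    exact hv

/-- **Key lemma.** -/
theorem key [LocallyConvexSpace ℝ E] (F : E →L[ℝ] E) {N : ℕ} (x : Fin N → E) {W : Set E}
    (hW : W ∈ 𝓝 (0 : E)) :
    ∃ (a : ℕ) (O : Set E) (V : Fin a → Set E), IsOpen O ∧ (∀ s, IsOpen (V s)) ∧
      (∃ K₀ : Set E, K₀.Nonempty ∧ IsCompact K₀ ∧ Convex ℝ K₀ ∧ K₀ ⊆ O ∧
        ∀ s, (K₀ ∩ V s).Nonempty) ∧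
      ∀ (ℓ n : ℕ) (K : Set E),
        (∀ j ≤ ℓ, F^[j * n] '' K ⊆ O ∧ ∀ s, ((F^[j * n] '' K) ∩ V s).Nonempty) →
        ∃ z : Fin N → E, ∀ i, ∀ j ≤ ℓ, F^[j * n] (z i) - x i ∈ W := by
  classical
  obtain ⟨a, ha, hmin⟩ := exists_min F x
  rcases a with _ | a
  · -- no generators: all `x i` are near zero
    refine ⟨0, univ, fun s => s.elim0, isOpen_univ, fun s => s.elim0,
      ⟨{0}, singleton_nonempty _, isCompact_singleton, convex_singleton _, subset_univ _,
        fun s => s.elim0⟩, fun ℓ n K _ => ⟨fun _ => 0, fun i j _ => ?_⟩⟩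
    obtain ⟨y, q, hq⟩ := ha (-W) (neg_mem_nhds_zero E hW)
    have h1 := hq i
    have h2 : F^[j * n] (0 : E) = 0 := by rw [← pow_iter]; simp
    rw [h2, zero_sub]
    simpa using h1
  obtain ⟨W₃, hW₃, hno⟩ := hmin a rfl
  obtain ⟨p, hp, hpW⟩ := exists_seminorm (Filter.inter_mem hW hW₃)
  have hball : {v : E | p v < 1 / 2} ∈ 𝓝 (0 : E) :=
    (isOpen_lt hp continuous_const).mem_nhds (by simp)
  obtain ⟨y, q, hq⟩ := ha _ hball
  -- the auxiliary seminorm
  let P : Seminorm ℝ E := ∑ i, ∑ s, p.comp ((aeval F (q i s) : E →L[ℝ] E) : E →ₗ[ℝ] E)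
  have hPapp : ∀ v, P v = ∑ i, ∑ s, p (aeval F (q i s) v) := by
    intro v
    change FunLike.coeAddMonoidHom _ _ _ (∑ i, ∑ s,
      p.comp ((aeval F (q i s) : E →L[ℝ] E) : E →ₗ[ℝ] E)) v = _
    simp_rw [map_sum, Finset.sum_apply]
    rfl
  have hPc : Continuous P := by
    have : (P : E → ℝ) = fun v => ∑ i, ∑ s, p (aeval F (q i s) v) := funext hPapp
    rw [this]
    fun_prop
  have hPq : ∀ i s v, p (aeval F (q i s) v) ≤ P v := by
    intro i s v
    rw [hPapp]
    calc p (aeval F (q i s) v) ≤ ∑ s, p (aeval F (q i s) v) :=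
          Finset.single_le_sum (f := fun s => p (aeval F (q i s) v))
            (fun _ _ => apply_nonneg _ _) (Finset.mem_univ s)
      _ ≤ _ := Finset.single_le_sum (f := fun i => ∑ s, p (aeval F (q i s) v))
            (fun _ _ => Finset.sum_nonneg fun _ _ => apply_nonneg _ _) (Finset.mem_univ i)
  set κ : ℝ := 1 / (4 * (a + 1)) with hκ
  have hκ0 : 0 < κ := by positivity
  have hclose : ∀ z : Fin (a + 1) → E, (∀ s, P (z s - y s) ≤ κ) →
      ∀ i, p (x i - ∑ s, aeval F (q i s) (z s)) < 1 := by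
    intro z hz i
    have h1 : x i - ∑ s, aeval F (q i s) (z s) =
        (x i - ∑ s, aeval F (q i s) (y s)) - ∑ s, aeval F (q i s) (z s - y s) := by
      simp only [map_sub, Finset.sum_sub_distrib]
      abel
    rw [h1]
    have h2 : p (∑ s, aeval F (q i s) (z s - y s)) ≤ ∑ _s : Fin (a + 1), κ :=
      (psum p _ _).trans (Finset.sum_le_sum fun s _ => (hPq i s _).trans (hz s))
    have h3 : (∑ _s : Fin (a + 1), κ) = 1 / 4 := by
      rw [Finset.sum_const, Finset.card_univ, Fintype.card_fin, nsmul_eq_mul, hκ]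
      push_cast
      field_simp
    have h4 := hq i
    simp only [mem_setOf_eq] at h4
    refine (map_sub_le_add p _ _).trans_lt ?_
    linarith
  set M : ℝ := ∑ s, ∑ t, P (y t - y s) with hMdef
  have hM : ∀ s t, P (y t - y s) ≤ M := by
    intro s t
    calc P (y t - y s) ≤ ∑ t, P (y t - y s) :=
          Finset.single_le_sum (f := fun t => P (y t - y s))
            (fun _ _ => apply_nonneg _ _) (Finset.mem_univ t)
      _ ≤ _ := Finset.single_le_sum (f := fun s => ∑ t, P (y t - y s))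
            (fun _ _ => Finset.sum_nonneg fun _ _ => apply_nonneg _ _) (Finset.mem_univ s)
  have hM0 : 0 ≤ M := Finset.sum_nonneg fun _ _ => Finset.sum_nonneg fun _ _ => apply_nonneg _ _
  set η : ℝ := κ / (2 * (a + 1) * (M + 1)) with hη
  have hη0 : 0 < η := by positivity
  have hη1 : η ≤ 1 := by
    rw [hη, div_le_one (by positivity)]
    have h1 : κ ≤ 1 := by
      rw [hκ, div_le_one (by positivity)]
      have : (0 : ℝ) ≤ a := by positivity
      linarith
    have h2 : (1 : ℝ) ≤ 2 * (a + 1) * (M + 1) := by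
      have : (0 : ℝ) ≤ a := by positivity
      nlinarith [mul_nonneg this hM0]
    linarith
  set δ : ℝ := η * κ / 2 with hδ
  have hδ0 : 0 < δ := by positivity
  have hδκ : δ ≤ κ / 2 := by rw [hδ]; nlinarith
  let T : (Fin (a + 1) → ℝ) → E := fun A => ∑ t, A t • y t
  have hTc : Continuous T := by fun_prop
  refine ⟨a + 1, ⋃ A ∈ stdSimplex ℝ (Fin (a + 1)), {v | P (v - T A) < δ},
    fun s => {v | P (v - y s) < δ}, ?_, ?_, ?_, ?_⟩
  · refine isOpen_biUnion fun A _ => isOpen_lt ?_ continuous_const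
    exact hPc.comp (continuous_id.sub continuous_const)
  · intro s
    exact isOpen_lt (hPc.comp (continuous_id.sub continuous_const)) continuous_const
  · refine ⟨T '' stdSimplex ℝ (Fin (a + 1)), ?_, (isCompact_stdSimplex _ _).image hTc, ?_, ?_, ?_⟩
    · exact ⟨_, ⟨_, single_mem_stdSimplex ℝ (0 : Fin (a + 1)), rfl⟩⟩
    · have : T = ⇑(Fintype.linearCombination ℝ y) := by
        funext A; simp [T, Fintype.linearCombination_apply]
      rw [this]
      exact (convex_stdSimplex ℝ _).linear_image _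
    · rintro _ ⟨A, hA, rfl⟩
      refine mem_biUnion hA ?_
      simp [hδ0]
    · intro s
      refine ⟨y s, ⟨Pi.single s 1, single_mem_stdSimplex ℝ s, ?_⟩, by simp [hδ0]⟩
      simp [T, Pi.single_apply]
  · intro ℓ n K hK
    have h0 := (hK 0 (Nat.zero_le _)).2
    simp only [zero_mul, Function.iterate_zero, image_id] at h0
    choose z hzK hz using h0
    by_cases hgood : ∀ j ≤ ℓ, ∀ s, P (F^[j * n] (z s) - y s) ≤ κ
    · refine ⟨fun i => ∑ s, aeval F (q i s) (z s), fun i j hj => ?_⟩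
      have h1 := hclose (fun s => F^[j * n] (z s)) (hgood j hj) i
      have h2 : F^[j * n] (∑ s, aeval F (q i s) (z s)) =
          ∑ s, aeval F (q i s) (F^[j * n] (z s)) := by
        rw [← pow_iter, map_sum]
        refine Finset.sum_congr rfl fun s _ => ?_
        rw [pow_iter, aeval_iter]
      rw [h2]
      apply (hpW _).1
      simp only [mem_setOf_eq]
      rw [map_sub_rev]
      exact h1
    · exfalso
      push Not at hgood
      obtain ⟨j, hj, s, hbad⟩ := hgood
      have h1 : F^[j * n] (z s) ∈ F^[j * n] '' K := mem_image_of_mem _ (hzK s)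
      have h2 := (hK j hj).1 h1
      simp only [mem_iUnion, exists_prop, mem_setOf_eq] at h2
      obtain ⟨A, hA, hw⟩ := h2
      refine hno ((core F x p P y q hκ0 hM hM0 hη hη0 hδ hδκ hclose z hz s (j * n) A
        hA.1 hA.2 hw hbad).mono ?_)
      exact hpW.trans inter_subset_right

end key

end Pool.Agent.Q83.Hyp
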